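import Pool.Agent.W869.LB.Defs

/-!
# A payoff set undetermined on all sets of boards `K` with `2 ^ |K| ≤ 2 ^ ℵ₀`
-/

set_option autoImplicit false

namespace Pool.Agent.W869.LB

open Cardinal Ordinal

/-- transfinite diagonalization -/
theorem diag {Ξ X : Type} {c : Cardinal.{0}} (hc : ℵ₀ ≤ c) (hΞ : #Ξ ≤ c) (hX : c ≤ #X)
    (E : Ξ → Ξ → X → Set X) {ν : Cardinal.{0}} (hν : ν < c) (hE : ∀ ξ η w, #(E ξ η w) ≤ ν) :
    ∃ (W : Ξ → X) (r : Ξ → Ξ → Prop), (∀ ξ η, ξ ≠ η → r ξ η ∨ r η ξ) ∧
      ∀ ξ η, r η ξ → W ξ ∉ E ξ η (W η) := by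
  classical
  obtain ⟨r, wo, hr⟩ := Cardinal.exists_ord_eq Ξ
  have hseg : ∀ ξ, #{η // r η ξ} < c := by
    intro ξ
    refine lt_of_lt_of_le ?_ hΞ
    have := Cardinal.card_typein_lt ξ hr
    rwa [Ordinal.card_typein] at this
  have hex : ∀ (ξ : Ξ) (prev : ∀ η, r η ξ → X), ∃ w : X, ∀ η (h : r η ξ), w ∉ E ξ η (prev η h) := by
    intro ξ prev
    have h1 : #(⋃ η : {η // r η ξ}, E ξ η.1 (prev η.1 η.2)) < c := by
      refine lt_of_le_of_lt (Cardinal.mk_iUnion_le_sum_mk) ?_
      refine lt_of_le_of_lt (Cardinal.sum_le_sum _ (fun _ => ν) fun η => hE _ _ _) ?_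
      rw [Cardinal.sum_const']
      exact Cardinal.mul_lt_of_lt hc (hseg ξ) hν
    by_contra hcon
    push Not at hcon
    have h2 : (⋃ η : {η // r η ξ}, E ξ η.1 (prev η.1 η.2)) = Set.univ := by
      rw [Set.eq_univ_iff_forall]
      intro w
      obtain ⟨η, h, hw⟩ := hcon w
      exact Set.mem_iUnion.2 ⟨⟨η, h⟩, hw⟩
    rw [h2, Cardinal.mk_univ] at h1
    exact absurd hX (not_le.2 h1)
  choose ch hch using hex
  have wf : WellFounded r := wo.wf
  let W : Ξ → X := wf.fix fun ξ prev => ch ξ prev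
  have hW : ∀ ξ, W ξ = ch ξ fun η _ => W η := fun ξ => wf.fix_eq _ ξ
  refine ⟨W, r, fun ξ η h => ?_, fun ξ η h => ?_⟩
  · rcases @trichotomous_of _ r _ ξ η with h1 | h1 | h1
    · exact Or.inl h1
    · exact absurd h1 h
    · exact Or.inr h1
  · rw [hW ξ]
    exact hch ξ (fun η _ => W η) η h

/-- the list of the first `n` values -/
def fs {X : Type} (x : ℕ → X) (n : ℕ) : List X := List.ofFn fun i : Fin n => x i

/-- the play in which ONE plays `x` and TWO follows the one-board strategy `T` -/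
def playT (T : List Bool → Bool → Bool) (x : ℕ → Bool) : ℕ → Bool := fun m =>
  if m % 2 = 0 then x (m / 2) else T (fs x (m / 2)) (x (m / 2))

/-- the play on the board `α` in which TWO plays `y` on all boards and ONE follows `R` -/
def playR {K : Type} (R : List Bool → K → Bool) (y : ℕ → Bool) (α : K) : ℕ → Bool := fun m =>
  if m % 2 = 0 then R (fs y (m / 2)) α else y (m / 2)

/-- the Boolean payoff set -/
theorem exists_payoff {K : Type} (hK : (2 : Cardinal.{0}) ^ #K ≤ 𝔠) :
    ∃ S : Set (ℕ → Bool), (∀ T : List Bool → Bool → Bool, ∃ x, playT T x ∈ S) ∧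
      ∀ R : List Bool → K → Bool, ∃ y, ∀ α, playR R y α ∉ S := by
  classical
  have hK1 : #K < 𝔠 := (Cardinal.cantor #K).trans_le hK
  let Ξ : Type := (List Bool → Bool → Bool) ⊕ (List Bool → K → Bool)
  have hΞ : #Ξ ≤ 𝔠 := by
    have h1 : #(List Bool → Bool → Bool) ≤ 𝔠 := by
      have : Countable (List Bool × Bool) := inferInstance
      rw [← Cardinal.mk_congr (Equiv.curry (List Bool) Bool Bool)]
      rw [Cardinal.mk_pi, Cardinal.prod_const]
      simp only [Cardinal.mk_bool, Cardinal.lift_id]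
      have h3 : #(List Bool × Bool) ≤ ℵ₀ := Cardinal.mk_le_aleph0
      calc (2 : Cardinal.{0}) ^ #(List Bool × Bool) ≤ 2 ^ ℵ₀ :=
            Cardinal.power_le_power_left two_ne_zero h3
        _ = 𝔠 := Cardinal.two_power_aleph0
    have h2 : #(List Bool → K → Bool) ≤ 𝔠 := by
      have e1 : #(List Bool → K → Bool) = (2 ^ #K) ^ #(List Bool) := by
        rw [Cardinal.mk_pi, Cardinal.prod_const]
        simp [Cardinal.mk_pi]
      rw [e1]
      calc ((2 : Cardinal.{0}) ^ #K) ^ #(List Bool) ≤ 𝔠 ^ #(List Bool) :=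
            Cardinal.power_le_power_right hK
        _ ≤ 𝔠 ^ ℵ₀ := Cardinal.power_le_power_left (Cardinal.continuum_ne_zero)
            Cardinal.mk_le_aleph0
        _ = 𝔠 := Cardinal.continuum_power_aleph0
    show #((List Bool → Bool → Bool) ⊕ (List Bool → K → Bool)) ≤ 𝔠
    rw [Cardinal.mk_sum, Cardinal.lift_id, Cardinal.lift_id]
    calc _ ≤ 𝔠 + 𝔠 := add_le_add h1 h2
      _ = 𝔠 := Cardinal.add_eq_self Cardinal.aleph0_le_continuum
  have hX : 𝔠 ≤ #(ℕ → Bool) := by simp
  let E : Ξ → Ξ → (ℕ → Bool) → Set (ℕ → Bool) := fun ξ η w =>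
    match ξ, η with
    | Sum.inl _, Sum.inr R => Set.range fun α n => playR R w α (2 * n)
    | Sum.inr _, Sum.inl T => {fun n => playT T w (2 * n + 1)}
    | _, _ => ∅
  have hE : ∀ ξ η w, #(E ξ η w) ≤ #K + 1 := by
    intro ξ η w
    rcases ξ with T | R <;> rcases η with T' | R'
    · simp [E]
    · show #(Set.range fun α n => playR R' w α (2 * n)) ≤ #K + 1
      exact (Cardinal.mk_range_le).trans le_self_add
    · show #({fun n => playT T' w (2 * n + 1)} : Set (ℕ → Bool)) ≤ #K + 1
      rw [Cardinal.mk_singleton]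
      exact le_add_self
    · simp [E]
  have hν : #K + 1 < 𝔠 :=
    Cardinal.add_lt_of_lt Cardinal.aleph0_le_continuum hK1 (by
      exact_mod_cast Cardinal.nat_lt_continuum 1)
  obtain ⟨W, r, hr, hW⟩ := diag Cardinal.aleph0_le_continuum hΞ hX E hν hE
  refine ⟨Set.range fun T : List Bool → Bool → Bool => playT T (W (Sum.inl T)),
    fun T => ⟨W (Sum.inl T), T, rfl⟩, fun R => ⟨W (Sum.inr R), fun α h => ?_⟩⟩
  obtain ⟨T, hT⟩ := h
  have hT' : playT T (W (Sum.inl T)) = playR R (W (Sum.inr R)) α := hT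
  rcases hr (Sum.inl T) (Sum.inr R) (by simp) with h | h
  · apply hW (Sum.inr R) (Sum.inl T) h
    show W (Sum.inr R) ∈ ({fun n => playT T (W (Sum.inl T)) (2 * n + 1)} : Set (ℕ → Bool))
    rw [Set.mem_singleton_iff, hT']
    funext n
    have e1 : ¬ (2 * n + 1) % 2 = 0 := by omega
    have e2 : (2 * n + 1) / 2 = n := by omega
    simp only [playR, e1, e2, if_false]
  · apply hW (Sum.inl T) (Sum.inr R) h
    show W (Sum.inl T) ∈ Set.range fun α n => playR R (W (Sum.inr R)) α (2 * n)
    refine ⟨α, ?_⟩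
    funext n
    show playR R (W (Sum.inr R)) α (2 * n) = _
    rw [← hT']
    have e1 : (2 * n) % 2 = 0 := by omega
    have e2 : (2 * n) / 2 = n := by omega
    simp only [playT, e1, e2, if_true]

section
variable {L K : Type}

open Classical in
/-- the payoff set on `L` -/
noncomputable def Pay (a b : L) (S : Set (ℕ → Bool)) : Set (ℕ → L) :=
  {z | (∃ w ∈ S, ∀ n, z n = if w n then a else b) ∨
    ∃ n, z (2 * n + 1) ≠ a ∧ z (2 * n + 1) ≠ b ∧ ∀ m < 2 * n + 1, z m = a ∨ z m = b}

/-- the list of the first `n` values -/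
theorem ofFn_succ' {X : Type} (f : ℕ → X) (n : ℕ) :
    (List.ofFn fun i : Fin (n + 1) => f i) = (List.ofFn fun i : Fin n => f i) ++ [f n] := by
  rw [List.ofFn_succ_last]
  rfl

theorem not_oneWins {a b : L} (hab : a ≠ b) {S : Set (ℕ → Bool)}
    (hS : ∀ R : List Bool → K → Bool, ∃ y, ∀ α, playR R y α ∉ S) :
    ¬ OneWins L K (Pay a b S) := by
  classical
  rintro ⟨σ, hσ⟩
  let em : Bool → L := fun t => if t then a else b
  -- histories
  let H : List Bool → List (K → L) := fun s =>
    s.foldl (fun h i => h ++ [σ h, fun _ => em i]) []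
  have hH : ∀ s i, H (s ++ [i]) = H s ++ [σ (H s), fun _ => em i] := by
    intro s i
    simp [H]
  obtain ⟨y, hy⟩ := hS fun s α => decide (σ (H s) α = a)
  let p : ℕ → List Bool := fun n => fs y n
  have hp : ∀ n, p (n + 1) = p n ++ [y n] := fun n => ofFn_succ' y n
  let f : ℕ → K → L := fun m => if m % 2 = 0 then σ (H (p (m / 2))) else fun _ => em (y (m / 2))
  have hf0 : ∀ n, f (2 * n) = σ (H (p n)) := fun n => by
    have e1 : (2 * n) % 2 = 0 := by omega
    have e2 : (2 * n) / 2 = n := by omega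
    simp only [f, e1, e2, if_true]
  have hf1 : ∀ n, f (2 * n + 1) = fun _ => em (y n) := fun n => by
    have e1 : ¬ (2 * n + 1) % 2 = 0 := by omega
    have e2 : (2 * n + 1) / 2 = n := by omega
    simp only [f, e1, e2, if_false]
  have hlist : ∀ n, (List.ofFn fun i : Fin (2 * n) => f i) = H (p n) := by
    intro n
    induction n with
    | zero => rfl
    | succ n ih =>
      rw [show 2 * (n + 1) = 2 * n + 1 + 1 by ring, ofFn_succ' f, ofFn_succ' f, ih, hp, hH, hf0, hf1]
      simp
  obtain ⟨α, hα⟩ := hσ f fun n => by rw [hf0, hlist]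
  rcases hα with ⟨w, hw, hfw⟩ | ⟨n, h1, h2, -⟩
  · apply hy α
    convert hw using 1
    funext m
    rcases Nat.even_or_odd' m with ⟨k, rfl | rfl⟩
    · have e1 : (2 * k) % 2 = 0 := by omega
      have e2 : (2 * k) / 2 = k := by omega
      simp only [playR, e1, e2, if_true]
      have h3 := hfw (2 * k)
      simp only at h3
      rw [hf0] at h3
      show decide (σ (H (p k)) α = a) = w (2 * k)
      rw [h3]
      cases w (2 * k)
      · simpa using hab.symm
      · simp
    · have e1 : ¬ (2 * k + 1) % 2 = 0 := by omega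
      have e2 : (2 * k + 1) / 2 = k := by omega
      simp only [playR, e1, e2, if_false]
      have h3 := hfw (2 * k + 1)
      simp only at h3
      rw [hf1] at h3
      simp only [em] at h3
      cases h4 : y k <;> cases h5 : w (2 * k + 1) <;> rw [h4, h5] at h3 <;>
        simp only [if_true, Bool.false_eq_true, if_false] at h3 ⊢
      · exact absurd h3.symm hab
      · exact absurd h3 hab
  · simp only at h1 h2
    rw [hf1] at h1 h2
    simp only [em] at h1 h2
    cases h4 : y n <;> rw [h4] at h1 h2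
    · simp at h2
    · simp at h1

theorem not_twoWins [Nonempty K] {a b : L} {S : Set (ℕ → Bool)}
    (hS : ∀ T : List Bool → Bool → Bool, ∃ x, playT T x ∈ S) :
    ¬ TwoWins L K (Pay a b S) := by
  classical
  rintro ⟨τ, hτ⟩
  let α : K := Classical.arbitrary K
  let em : Bool → L := fun t => if t then a else b
  let H : List Bool → List (K → L) := fun s =>
    s.foldl (fun h i => h ++ [fun _ => em i, τ (h ++ [fun _ => em i])]) []
  have hH : ∀ s i, H (s ++ [i]) = H s ++ [fun _ => em i, τ (H s ++ [fun _ => em i])] := by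
    intro s i
    simp [H]
  obtain ⟨x, hx⟩ := hS fun s i => decide (τ (H s ++ [fun _ => em i]) α = a)
  let p : ℕ → List Bool := fun n => fs x n
  have hp : ∀ n, p (n + 1) = p n ++ [x n] := fun n => ofFn_succ' x n
  let f : ℕ → K → L := fun m => if m % 2 = 0 then fun _ => em (x (m / 2)) else
    τ (H (p (m / 2)) ++ [fun _ => em (x (m / 2))])
  have hf0 : ∀ n, f (2 * n) = fun _ => em (x n) := fun n => by
    have e1 : (2 * n) % 2 = 0 := by omega
    have e2 : (2 * n) / 2 = n := by omega
    simp only [f, e1, e2, if_true]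
  have hf1 : ∀ n, f (2 * n + 1) = τ (H (p n) ++ [fun _ => em (x n)]) := fun n => by
    have e1 : ¬ (2 * n + 1) % 2 = 0 := by omega
    have e2 : (2 * n + 1) / 2 = n := by omega
    simp only [f, e1, e2, if_false]
  have hlist : ∀ n, (List.ofFn fun i : Fin (2 * n) => f i) = H (p n) := by
    intro n
    induction n with
    | zero => rfl
    | succ n ih =>
      rw [show 2 * (n + 1) = 2 * n + 1 + 1 by ring, ofFn_succ' f, ofFn_succ' f, ih, hp, hH, hf0, hf1]
      simp
  have hrun := hτ f (fun n => by rw [hf1, ofFn_succ' f, hlist, hf0]) α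
  apply hrun
  have heven : ∀ n, f (2 * n) α = a ∨ f (2 * n) α = b := by
    intro n
    rw [hf0]
    simp only [em]
    cases x n
    · right; simp
    · left; simp
  by_cases hall : ∀ m, f m α = a ∨ f m α = b
  · left
    refine ⟨_, hx, fun m => ?_⟩
    rcases Nat.even_or_odd' m with ⟨k, rfl | rfl⟩
    · have e1 : (2 * k) % 2 = 0 := by omega
      have e2 : (2 * k) / 2 = k := by omega
      simp only [playT, e1, e2, if_true]
      rw [hf0]
    · have e1 : ¬ (2 * k + 1) % 2 = 0 := by omega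
      have e2 : (2 * k + 1) / 2 = k := by omega
      simp only [playT, e1, e2, if_false]
      rw [hf1]
      have h3 := hall (2 * k + 1)
      rw [hf1] at h3
      by_cases h4 : τ (H (p k) ++ [fun _ => em (x k)]) α = a
      · rw [h4]; simp
      · have h5 := h3.resolve_left h4
        rw [h5] at h4 ⊢
        simp [h4]
  · right
    push Not at hall
    let m := Nat.find hall
    have hm : f m α ≠ a ∧ f m α ≠ b := Nat.find_spec hall
    have hm2 : ∀ k < m, f k α = a ∨ f k α = b := fun k hk => by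
      have := Nat.find_min hall hk
      tauto
    rcases Nat.even_or_odd' m with ⟨k, hk | hk⟩
    · rw [hk] at hm
      rcases heven k with h | h
      · exact absurd h hm.1
      · exact absurd h hm.2
    · exact ⟨k, by rw [← hk]; exact hm.1, by rw [← hk]; exact hm.2, fun j hj =>
        hm2 j (by rw [hk]; exact hj)⟩

/-- **`D(L, K)` implies `2 ^ ℵ₀ < 2 ^ |K|`.** -/
theorem lt_of_D [Nonempty K] (hL : (2 : Cardinal.{0}) ≤ #L) (h : D L K) :
    (𝔠 : Cardinal.{0}) < 2 ^ #K := by
  by_contra hcon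
  rw [not_lt] at hcon
  obtain ⟨a, b, hab⟩ := Cardinal.two_le_iff.1 hL
  obtain ⟨S, h1, h2⟩ := exists_payoff hcon
  rcases h (Pay a b S) with h3 | h3
  · exact not_oneWins hab h2 h3
  · exact not_twoWins h1 h3

end

end Pool.Agent.W869.LB
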