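import Mathlib

/-!
# Multiboard Gale-Stewart games and Laver ideals: definitions
-/

set_option autoImplicit false

namespace Pool.Agent.W869.LB

open Cardinal

/-- ONE has a winning strategy in the game `GS_L(A, K)`: ONE makes the moves `f 0, f 2, …`, TWO the
moves `f 1, f 3, …`; each move is a function from the set `K` of boards to `L`. -/
def OneWins (L K : Type) (A : Set (ℕ → L)) : Prop :=
  ∃ σ : List (K → L) → (K → L), ∀ f : ℕ → K → L,
    (∀ n : ℕ, f (2 * n) = σ (List.ofFn (fun i : Fin (2 * n) => f i.val))) →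
    ∃ α : K, (fun n => f n α) ∈ A

/-- TWO has a winning strategy in the game `GS_L(A, K)`. -/
def TwoWins (L K : Type) (A : Set (ℕ → L)) : Prop :=
  ∃ τ : List (K → L) → (K → L), ∀ f : ℕ → K → L,
    (∀ n : ℕ, f (2 * n + 1) = τ (List.ofFn (fun i : Fin (2 * n + 1) => f i.val))) →
    ∀ α : K, (fun n => f n α) ∉ A

/-- The statement `D(λ, κ)` for `λ = |L|`, `κ = |K|`: all games `GS_L(A, K)` are determined. -/
def D (L K : Type) : Prop := ∀ A : Set (ℕ → L), OneWins L K A ∨ TwoWins L K A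

/-- `I` is a proper `μ⁺`-complete ideal of subsets of `K`, every `I`-positive set splits into two
`I`-positive sets, and `Δ` is a dense family of positive sets such that each decreasing sequence
(of length `ω`) of members of `Δ` has a positive intersection. -/
structure LaverIdeal (μ : Cardinal.{0}) (K : Type) (I Δ : Set (Set K)) : Prop where
  univ_notMem : Set.univ ∉ I
  mono : ∀ X Y, X ⊆ Y → Y ∈ I → X ∈ I
  union : ∀ (ι : Type) (X : ι → Set K), #ι ≤ μ → (∀ i, X i ∈ I) → (⋃ i, X i) ∈ I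
  split : ∀ X, X ∉ I → ∃ Y, Y ⊆ X ∧ Y ∉ I ∧ X \ Y ∉ I
  pos : ∀ X ∈ Δ, X ∉ I
  dense : ∀ X, X ∉ I → ∃ Z ∈ Δ, Z ⊆ X
  closed : ∀ X : ℕ → Set K, (∀ n, X n ∈ Δ) → (∀ n, X (n + 1) ⊆ X n) → (⋂ n, X n) ∉ I

end Pool.Agent.W869.LB
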