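import Pool.Agent.W869.LB.Defs

/-!
# Laver ideals give determinacy of the multiboard games
-/

set_option autoImplicit false

namespace Pool.Agent.W869.LB

open Cardinal

section
variable {L K : Type}

/-- the reversed list of the first `n` values -/
def pre (x : ℕ → L) : ℕ → List L
  | 0 => []
  | n + 1 => x n :: pre x n

theorem pre_length (x : ℕ → L) (n : ℕ) : (pre x n).length = n := by
  induction n with
  | zero => rfl
  | succ n ih => simp [pre, ih]

theorem pre_congr {x x' : ℕ → L} {n : ℕ} (h : ∀ m < n, x m = x' m) : pre x n = pre x' n := by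
  induction n with
  | zero => rfl
  | succ n ih => rw [pre, pre, h n (by omega), ih fun m hm => h m (by omega)]

/-- If TWO has no winning strategy on the boards in `K`, then each one-board strategy of TWO loses
a play. -/
theorem exists_play [Nonempty L] {A : Set (ℕ → L)} (h : ¬ TwoWins L K A)
    (T : List L → L → L) :
    ∃ x : ℕ → L, (fun m => if m % 2 = 0 then x (m / 2) else T (pre x (m / 2)) (x (m / 2))) ∈ A := by
  classical
  by_contra hcon
  push Not at hcon
  apply h
  let d : L := Classical.arbitrary L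
  let xx : List (K → L) → K → ℕ → L := fun h α m => (h.getD (2 * m) fun _ => d) α
  refine ⟨fun h α => T (pre (xx h α) (h.length / 2)) (xx h α (h.length / 2)), fun f hf α hA => ?_⟩
  apply hcon (fun n => f (2 * n) α)
  convert hA using 2 with m
  rcases Nat.even_or_odd' m with ⟨k, rfl | rfl⟩
  · have h1 : (2 * k) % 2 = 0 := by omega
    have h2 : (2 * k) / 2 = k := by omega
    simp only [h1, h2, if_true]
  · have h1 : ¬ (2 * k + 1) % 2 = 0 := by omega
    have h2 : (2 * k + 1) / 2 = k := by omega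
    simp only [h1, h2, if_false]
    rw [hf k]
    have h3 : (List.ofFn fun i : Fin (2 * k + 1) => f i).length / 2 = k := by
      rw [List.length_ofFn]; omega
    have h4 : ∀ m ≤ k, xx (List.ofFn fun i : Fin (2 * k + 1) => f i) α m = f (2 * m) α := by
      intro m hm
      simp only [xx]
      rw [List.getD_eq_getElem _ _ (by rw [List.length_ofFn]; omega)]
      simp
    simp only [h3]
    rw [h4 k le_rfl]
    congr 1
    exact (pre_congr fun m hm => h4 m hm.le).symm

end

section
variable {μ : Cardinal.{0}} {L K : Type} {I Δ : Set (Set K)} (hI : LaverIdeal μ K I Δ)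

include hI in
theorem exists_two {Z : Set K} (hZ : Z ∈ Δ) :
    ∃ c : Bool → Set K, (∀ b, c b ∈ Δ ∧ c b ⊆ Z) ∧ Disjoint (c true) (c false) := by
  obtain ⟨Y, hY, h1, h2⟩ := hI.split Z (hI.pos Z hZ)
  obtain ⟨U, hU, hUY⟩ := hI.dense _ h1
  obtain ⟨W, hW, hWY⟩ := hI.dense _ h2
  refine ⟨fun b => if b then U else W, fun b => ?_, ?_⟩
  · cases b
    · exact ⟨by simpa using hW, by simpa using hWY.trans Set.sdiff_subset⟩
    · exact ⟨by simpa using hU, by simpa using hUY.trans hY⟩
  · simp only [if_true]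
    exact Set.disjoint_of_subset hUY (by simpa using hWY) Set.disjoint_sdiff_right

include hI in
/-- each member of `Δ` contains `|L|` pairwise disjoint members of `Δ`, if `|L| ≤ 2 ^ ℵ₀` -/
theorem exists_many (e : L ↪ (ℕ → Bool)) {Z : Set K} (hZ : Z ∈ Δ) :
    ∃ c : L → Set K, (∀ i, c i ∈ Δ ∧ c i ⊆ Z) ∧ ∀ i j, i ≠ j → Disjoint (c i) (c j) := by
  classical
  have h2 : ∀ Z : Set K, ∃ c : Bool → Set K, Z ∈ Δ →
      ((∀ b, c b ∈ Δ ∧ c b ⊆ Z) ∧ Disjoint (c true) (c false)) := by
    intro Z
    by_cases hZ : Z ∈ Δ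
    · obtain ⟨c, hc⟩ := exists_two hI hZ
      exact ⟨c, fun _ => hc⟩
    · exact ⟨fun _ => ∅, fun h => absurd h hZ⟩
  choose c hc using h2
  let T : (ℕ → Bool) → ℕ → Set K := fun β n => Nat.rec Z (fun n Y => c Y (β n)) n
  have hT0 : ∀ β, T β 0 = Z := fun β => rfl
  have hT : ∀ β n, T β (n + 1) = c (T β n) (β n) := fun β n => rfl
  have hTΔ : ∀ β n, T β n ∈ Δ := by
    intro β n
    induction n with
    | zero => exact hZ
    | succ n ih => rw [hT]; exact ((hc _ ih).1 _).1
  have hTs : ∀ β n, T β (n + 1) ⊆ T β n := fun β n => by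
    rw [hT]; exact ((hc _ (hTΔ β n)).1 _).2
  have hTc : ∀ β β' n, (∀ m < n, β m = β' m) → T β n = T β' n := by
    intro β β' n
    induction n with
    | zero => intro _; rfl
    | succ n ih =>
      intro h
      rw [hT, hT, ih fun m hm => h m (by omega), h n (by omega)]
  have hP : ∀ β, ∃ Y ∈ Δ, Y ⊆ ⋂ n, T β n := fun β => hI.dense _ (hI.closed _ (hTΔ β) (hTs β))
  choose P hPΔ hPs using hP
  refine ⟨fun i => P (e i), fun i => ⟨hPΔ _, (hPs _).trans (Set.iInter_subset _ 0)⟩, ?_⟩
  intro i j hij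
  have hne : e i ≠ e j := fun h => hij (e.injective h)
  have hex : ∃ n, e i n ≠ e j n := Function.ne_iff.1 hne
  let n0 := Nat.find hex
  have h1 : e i n0 ≠ e j n0 := Nat.find_spec hex
  have h3 : ∀ m < n0, e i m = e j m := fun m hm => by
    have := Nat.find_min hex hm
    simpa using this
  have h4 : T (e i) n0 = T (e j) n0 := hTc _ _ _ h3
  have h5 : Disjoint (T (e i) (n0 + 1)) (T (e j) (n0 + 1)) := by
    rw [hT, hT, ← h4]
    have h6 := (hc _ (hTΔ (e i) n0)).2
    cases hi : e i n0 <;> cases hj : e j n0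
    · exact absurd (hi.trans hj.symm) h1
    · exact h6.symm
    · exact h6
    · exact absurd (hi.trans hj.symm) h1
  exact Set.disjoint_of_subset ((hPs _).trans (Set.iInter_subset _ (n0 + 1)))
    ((hPs _).trans (Set.iInter_subset _ (n0 + 1))) h5

include hI in
theorem exists_hom (hL : #L ≤ μ) {Z : Set K} (hZ : Z ∈ Δ) (g : K → L) :
    ∃ p : Set K × L, p.1 ∈ Δ ∧ p.1 ⊆ Z ∧ ∀ α ∈ p.1, g α = p.2 := by
  by_contra hcon
  push Not at hcon
  apply hI.pos Z hZ
  have h1 : Z = ⋃ j : L, Z ∩ {α | g α = j} := by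
    ext α
    simp
  rw [h1]
  apply hI.union L _ hL
  intro j
  by_contra h2
  obtain ⟨Y, hY, hYs⟩ := hI.dense _ h2
  obtain ⟨α, hα, hne⟩ := hcon (Y, j) hY (hYs.trans Set.inter_subset_left)
  exact hne (hYs hα).2

include hI in
/-- **Laver ideals give determinacy.** -/
theorem det (hL : #L ≤ μ) (e : L ↪ (ℕ → Bool)) [Nonempty L] : D L K := by
  classical
  intro A
  by_cases hTW : TwoWins L K A
  · exact Or.inr hTW
  left
  obtain ⟨Z0, hZ0, _⟩ := hI.dense _ hI.univ_notMem
  have h1 : ∀ Z : Set K, ∃ c : L → Set K, Z ∈ Δ →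
      ((∀ i, c i ∈ Δ ∧ c i ⊆ Z) ∧ ∀ i j, i ≠ j → Disjoint (c i) (c j)) := by
    intro Z
    by_cases hZ : Z ∈ Δ
    · obtain ⟨c, hc⟩ := exists_many hI e hZ
      exact ⟨c, fun _ => hc⟩
    · exact ⟨fun _ => ∅, fun h => absurd h hZ⟩
  choose pp hpp using h1
  have h2 : ∀ (Z : Set K) (g : K → L), ∃ p : Set K × L, Z ∈ Δ →
      (p.1 ∈ Δ ∧ p.1 ⊆ Z ∧ ∀ α ∈ p.1, g α = p.2) := by
    intro Z g
    by_cases hZ : Z ∈ Δ
    · obtain ⟨p, hp⟩ := exists_hom hI hL hZ g
      exact ⟨p, fun _ => hp⟩
    · exact ⟨(∅, Classical.arbitrary L), fun h => absurd h hZ⟩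
  choose hm hhm using h2
  let X : (ℕ → K → L) → List L → Set K := fun g s =>
    List.rec Z0 (fun i s Y => (hm (pp Y i) (g s.length)).1) s
  have hX0 : ∀ g, X g [] = Z0 := fun g => rfl
  have hX : ∀ g i s, X g (i :: s) = (hm (pp (X g s) i) (g s.length)).1 := fun g i s => rfl
  have hXΔ : ∀ g s, X g s ∈ Δ := by
    intro g s
    induction s with
    | nil => exact hZ0
    | cons i s ih => rw [hX]; exact (hhm _ _ ((hpp _ ih).1 i).1).1
  have hXp : ∀ g i s, X g (i :: s) ⊆ pp (X g s) i := fun g i s => by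
    rw [hX]; exact (hhm _ _ ((hpp _ (hXΔ g s)).1 i).1).2.1
  have hXa : ∀ g i s, ∀ α ∈ X g (i :: s), g s.length α = (hm (pp (X g s) i) (g s.length)).2 :=
    fun g i s => by
      rw [hX]; exact (hhm _ _ ((hpp _ (hXΔ g s)).1 i).1).2.2
  have hXs : ∀ g i s, X g (i :: s) ⊆ X g s := fun g i s =>
    (hXp g i s).trans ((hpp _ (hXΔ g s)).1 i).2
  have hXc : ∀ g g' s, (∀ m < s.length, g m = g' m) → X g s = X g' s := by
    intro g g' s
    induction s with
    | nil => intro _; rfl
    | cons i s ih =>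
      intro h
      rw [hX, hX, ih fun m hm => h m (by simp; omega), h s.length (by simp)]
  have hXd : ∀ g s s', s.length = s'.length → s ≠ s' → Disjoint (X g s) (X g s') := by
    intro g s
    induction s with
    | nil =>
      intro s' h1 h2
      exact absurd (List.length_eq_zero_iff.1 h1.symm).symm h2
    | cons i s ih =>
      intro s' h1 h2
      cases s' with
      | nil => simp at h1
      | cons j s' =>
        by_cases hs : s = s'
        · subst hs
          have hij : i ≠ j := fun h => h2 (by rw [h])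
          exact Set.disjoint_of_subset (hXp g i s) (hXp g j s) ((hpp _ (hXΔ g s)).2 i j hij)
        · exact Set.disjoint_of_subset (hXs g i s) (hXs g j s')
            (ih s' (by simpa using h1) hs)
  -- uniqueness of the position
  have huniq : ∀ g s s' i i' α, s.length = s'.length → α ∈ pp (X g s) i → α ∈ pp (X g s') i' →
      i = i' := by
    intro g s s' i i' α h1 h2 h3
    by_cases hs : s = s'
    · subst hs
      by_contra hne
      exact Set.disjoint_left.1 ((hpp _ (hXΔ g s)).2 i i' hne) h2 h3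
    · exact absurd (((hpp _ (hXΔ g s')).1 i').2 h3)
        (Set.disjoint_left.1 (hXd g s s' h1 hs) (((hpp _ (hXΔ g s)).1 i).2 h2))
  let d : L := Classical.arbitrary L
  let gg : List (K → L) → ℕ → K → L := fun h m => h.getD (2 * m + 1) fun _ => d
  refine ⟨fun h α => if hx : ∃ i s, s.length = h.length / 2 ∧ α ∈ pp (X (gg h) s) i then
    hx.choose else d, fun f hf => ?_⟩
  let g : ℕ → K → L := fun n => f (2 * n + 1)
  have hgg : ∀ n, ∀ s : List L, s.length = n →
      X (gg (List.ofFn fun i : Fin (2 * n) => f i)) s = X g s := by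
    intro n s hs
    apply hXc
    intro m hm
    simp only [gg, g]
    rw [List.getD_eq_getElem _ _ (by rw [List.length_ofFn]; omega)]
    simp
  obtain ⟨x, hx⟩ := exists_play hTW fun s i => (hm (pp (X g s) i) (g s.length)).2
  have hpos : (⋂ n, X g (pre x n)) ∉ I :=
    hI.closed _ (fun n => hXΔ g _) (fun n => hXs g _ _)
  have hne : (⋂ n, X g (pre x n)).Nonempty := by
    by_contra hempty
    rw [Set.not_nonempty_iff_eq_empty] at hempty
    rw [hempty] at hpos
    apply hpos
    have h3 := hI.union PEmpty (fun _ => ∅) (by simp) (fun i => i.elim)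
    simpa using h3
  obtain ⟨α, hα⟩ := hne
  rw [Set.mem_iInter] at hα
  refine ⟨α, ?_⟩
  convert hx using 2 with m
  rcases Nat.even_or_odd' m with ⟨k, rfl | rfl⟩
  · have e1 : (2 * k) % 2 = 0 := by omega
    have e2 : (2 * k) / 2 = k := by omega
    simp only [e1, e2, if_true]
    rw [hf k]
    have h4 : ∃ i s, s.length = (List.ofFn fun i : Fin (2 * k) => f i).length / 2 ∧
        α ∈ pp (X (gg (List.ofFn fun i : Fin (2 * k) => f i)) s) i := by
      refine ⟨x k, pre x k, ?_, ?_⟩
      · rw [pre_length, List.length_ofFn]; omega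
      · rw [hgg k _ (pre_length _ _)]
        exact hXp _ _ _ (hα (k + 1))
    show dite _ _ _ = _
    rw [dif_pos h4]
    obtain ⟨s, hs1, hs2⟩ := h4.choose_spec
    rw [List.length_ofFn, e2] at hs1
    rw [hgg k s hs1] at hs2
    exact huniq g s (pre x k) _ _ α (by rw [hs1, pre_length]) hs2 (hXp _ _ _ (hα (k + 1)))
  · have e1 : ¬ (2 * k + 1) % 2 = 0 := by omega
    have e2 : (2 * k + 1) / 2 = k := by omega
    simp only [e1, e2, if_false]
    have h5 := hXa g (x k) (pre x k) α (hα (k + 1))
    rw [pre_length] at h5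
    rw [pre_length]
    exact h5

end

end Pool.Agent.W869.LB
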